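import Mathlib
import Pool.Agent.H432.AC.Main
import Pool.Agent.H432.TC.AbcS

/-!
The truncated inequality for the points over a fixed field `L` on all curves of bounded degree: only
the abc conjecture over `L` is used.
-/

set_option autoImplicit false
set_option linter.unusedVariables false
set_option linter.unusedSectionVars false

namespace Pool.Agent.H432.AQ

open NumberField IsDedekindDomain Height Module MvPolynomial Pool.Agent.N750 Pool.Agent.H432.RC
open Pool.Agent.H432.TC (Bd Bd_cst Bd_nrm bdc le_prod_bd DM DM_fin Mt Mt_of_meet fin_sub_le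
  sum_wt_le swap_ht cnt_ext DM_over mem_over exists_under line_e)
open Pool.Agent.W180.OP (Pl av nrm le_nrm nrm_pos exists_nrm nrm_nonneg)
open Pool.Agent.Q290.NF (ell ell_pos ind ind_pos ind_neg wt wt_mono wt_or_le wt_nonneg)
open Pool.Agent.H432.AC

/-- the inequality for the finite sets of points of `E` and the points with the property `R` -/
def LineR (E : Type) [Field E] [NumberField E] (R : E → Prop) : Prop :=
  ∀ (ν : ℕ) (b : Fin ν → E), Function.Injective b → ∀ (S' : Finset (HeightOneSpectrum (𝓞 E)))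
    (Bad : Set (HeightOneSpectrum (𝓞 E))), Bad.Finite → ∀ ε : ℝ, 0 < ε →
    ∃ C0 : ℝ, ∀ t0 : E, R t0 → (∀ a, t0 ≠ b a) → ((ν : ℝ) - 1 - ε) * logHeight ![1, t0] ≤
      wt (fun v => v ∉ S' ∧ v ∉ Bad ∧ MeetT b t0 v) + C0

/-- the abc conjecture over `L` for the points `b a` over `E` and infinity -/
theorem abcL {L E : Type} [Field L] [NumberField L] [Field E] [NumberField E] [Algebra L E]
    (hL : ∀ ε : ℝ, 0 < ε → ∃ C : ℝ, ∀ u : L, Pool.Agent.Q290.NF.Gen u⁻¹ →
      (1 - ε) * logHeight₁ u⁻¹ ≤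
        Pool.Agent.Q290.NF.wt (fun v => Pool.Agent.Q290.NF.Near u⁻¹ v) + C) :
    LineR E (fun t => ∃ T : L, algebraMap L E T = t) := by
  classical
  intro ν b hb S' Bad hBad ε hε
  set B1 : Set (HeightOneSpectrum (𝓞 E)) := ⋃ a, {v | nrm (av (Sum.inr v : Pl E)) ![1, b a] ≠ 1}
    with hB1
  have hB1f : B1.Finite := Set.finite_iUnion fun a =>
    (Bd_nrm (![1, b a] : Fin 2 → E) 0 rfl).2.preimage Sum.inr_injective.injOn
  set B2 : Set (HeightOneSpectrum (𝓞 E)) := ⋃ (a : Fin ν) (a' : Fin ν),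
    {v | a ≠ a' ∧ Pool.Agent.W180.OP.fv v (b a - b a') ≠ 1} with hB2
  have hB2f : B2.Finite := by
    refine Set.finite_iUnion fun a => Set.finite_iUnion fun a' => ?_
    by_cases haa : a = a'
    · refine Set.finite_empty.subset ?_
      rintro v ⟨hv, -⟩
      exact hv haa
    · exact (Pool.Agent.W180.OP.fv_support_finite (sub_ne_zero.2 (hb.ne haa))).subset
        fun v hv => hv.2
  set Bad2 : Set (HeightOneSpectrum (𝓞 E)) := (Bad ∪ (S' : Set (HeightOneSpectrum (𝓞 E)))) ∪
    (B1 ∪ B2) with hBad2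
  have hBad2f : Bad2.Finite := (hBad.union S'.finite_toSet).union (hB1f.union hB2f)
  obtain ⟨C3, hC3⟩ := line_e (L := L) (K := E) (Finset.univ.image b) hL ε hε
  refine ⟨(ν + 1 : ℕ) * wt (fun v => v ∈ Bad2) + C3, ?_⟩
  rintro t0 ⟨T, rfl⟩ ht
  set t0 : E := algebraMap L E T with ht0
  have hTA : t0 ∉ Finset.univ.image b := by
    intro h
    obtain ⟨a, -, ha⟩ := Finset.mem_image.1 h
    exact ht a ha.symm
  have h3 := hC3 T hTA
  have hcard : ((Finset.univ.image b).card : ℝ) = ν := by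
    rw [Finset.card_image_of_injective _ hb, Finset.card_univ, Fintype.card_fin]
  rw [hcard, Finset.sum_image hb.injOn, logHeight₁_eq_logHeight, swap_ht] at h3
  -- the conditions
  set W : Fin (ν + 1) → HeightOneSpectrum (𝓞 E) → Prop := Fin.cons
    (fun v => 1 < v.valuation E t0) (fun a v => v.valuation E (t0 - b a) < 1) with hW
  have hW0 : W 0 = fun v => 1 < v.valuation E t0 := rfl
  have hWs : ∀ a : Fin ν, W a.succ = fun v => v.valuation E (t0 - b a) < 1 := fun a => rfl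
  have h3' : ((ν : ℝ) - 1 - ε) * logHeight ![1, t0] ≤ ∑ l, wt (W l) + C3 := by
    rw [Fin.sum_univ_succ, hW0]
    simp only [hWs]
    exact h3
  have hgood1 : ∀ v, v ∉ Bad2 → ∀ a, nrm (av (Sum.inr v : Pl E)) ![1, b a] = 1 := by
    intro v hv a
    by_contra hcon
    apply hv
    rw [hBad2, hB1]
    exact Or.inr (Or.inl (Set.mem_iUnion.2 ⟨a, hcon⟩))
  have hgood2 : ∀ v, v ∉ Bad2 → ∀ a a', a ≠ a' → av (Sum.inr v : Pl E) (b a - b a') = 1 := by
    intro v hv a a' haa
    by_contra hcon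
    apply hv
    rw [hBad2, hB2]
    exact Or.inr (Or.inr (Set.mem_iUnion.2 ⟨a, Set.mem_iUnion.2 ⟨a', haa, hcon⟩⟩))
  have hinf : ∀ v, W 0 v → 1 < nrm (av (Sum.inr v : Pl E)) ![1, t0] := by
    intro v hv
    have h1 : (v.valuation E) (1 : E) < v.valuation E t0 := by
      rw [map_one]
      exact hv
    have h2 := Pool.Agent.H432.TC.mk_lt_iff.2 h1
    have h4 : av (Sum.inr v : Pl E) 1 < av (Sum.inr v : Pl E) t0 := h2
    rw [map_one] at h4
    exact h4.trans_le (nrm2_ge _ t0)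
  have hle : ∀ v, v ∉ Bad2 → ∀ a, av (Sum.inr v : Pl E) (t0 - b a) ≤
      nrm (av (Sum.inr v : Pl E)) ![1, t0] := by
    intro v hv a
    refine (fin_sub_le v t0 (b a)).trans (max_le (nrm2_ge _ t0) ?_)
    have h1 := nrm2_ge (Sum.inr v : Pl E) (b a)
    rw [hgood1 v hv a] at h1
    exact h1.trans (nrm2_pos _ t0)
  have hfinm : ∀ v, v ∉ Bad2 → ∀ a : Fin ν, W a.succ v →
      nrm (av (Sum.inr v : Pl E)) ![1, t0] = 1 ∧ av (Sum.inr v : Pl E) (t0 - b a) < 1 := by
    intro v hv a ha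
    have h1 : v.valuation E (t0 - b a) < v.valuation E 1 := by
      rw [map_one]
      exact ha
    have h2 := Pool.Agent.H432.TC.mk_lt_iff.2 h1
    have h4 : av (Sum.inr v : Pl E) (t0 - b a) < av (Sum.inr v : Pl E) 1 := h2
    rw [map_one] at h4
    refine ⟨le_antisymm ?_ (nrm2_pos _ t0), h4⟩
    have h5 := nrm2_ge (Sum.inr v : Pl E) (b a)
    rw [hgood1 v hv a] at h5
    have h6 : av (Sum.inr v : Pl E) t0 ≤ 1 := by
      have h7 : t0 = (t0 - b a) - (-b a) := by ring
      rw [h7]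
      refine (fin_sub_le v _ _).trans (max_le h4.le ?_)
      rw [(av (Sum.inr v : Pl E)).map_neg]
      exact h5
    exact nrm2_le _ t0 le_rfl h6
  have hmeet : ∀ v, v ∉ Bad2 → ∀ l, W l v → MeetT b t0 v := by
    intro v hv l
    have hR1 := nrm2_pos (Sum.inr v : Pl E) t0
    refine Fin.cases ?_ (fun a => ?_) l
    · intro h
      have h1 := hinf v h
      unfold MeetT
      rw [map_prod]
      calc ∏ a, av (Sum.inr v : Pl E) (t0 - b a) ≤
            ∏ _a : Fin ν, nrm (av (Sum.inr v : Pl E)) ![1, t0] :=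
            Finset.prod_le_prod (fun a _ => (av _).nonneg _) fun a _ => hle v hv a
        _ = nrm (av (Sum.inr v : Pl E)) ![1, t0] ^ ν := by
            rw [Finset.prod_const, Finset.card_univ, Fintype.card_fin]
        _ < _ := pow_lt_pow_right₀ h1 (Nat.lt_succ_self ν)
    · intro h
      obtain ⟨h1, h2⟩ := hfinm v hv a h
      unfold MeetT
      rw [map_prod, h1, one_pow]
      rw [← Finset.mul_prod_erase _ _ (Finset.mem_univ a)]
      have h7 : ∏ a' ∈ Finset.univ.erase a, av (Sum.inr v : Pl E) (t0 - b a') ≤ 1 :=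
        Finset.prod_le_one (fun _ _ => (av _).nonneg _) fun a' _ => by
          have := hle v hv a'
          rwa [h1] at this
      have h8 : 0 ≤ ∏ a' ∈ Finset.univ.erase a, av (Sum.inr v : Pl E) (t0 - b a') :=
        Finset.prod_nonneg fun _ _ => (av _).nonneg _
      have h9 := (av (Sum.inr v : Pl E)).nonneg (t0 - b a)
      nlinarith
  have huniq : ∀ v, v ∉ Bad2 → ∀ l l' : Fin (ν + 1), W l v → W l' v → l = l' := by
    intro v hv l l'
    refine Fin.cases ?_ (fun a => ?_) l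
    · refine Fin.cases ?_ (fun a' => ?_) l'
      · intro _ _
        rfl
      · intro h1 h2
        have := hinf v h1
        have := (hfinm v hv a' h2).1
        linarith
    · refine Fin.cases ?_ (fun a' => ?_) l'
      · intro h2 h1
        have := hinf v h1
        have := (hfinm v hv a h2).1
        linarith
      · intro h1 h2
        by_contra haa
        have haa' : a ≠ a' := fun h => haa (by rw [h])
        have h3 := (hfinm v hv a h1).2
        have h4 := (hfinm v hv a' h2).2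
        have h5 := hgood2 v hv a a' haa'
        have h6 : av (Sum.inr v : Pl E) (b a - b a') ≤
            max (av (Sum.inr v : Pl E) (t0 - b a')) (av (Sum.inr v : Pl E) (t0 - b a)) := by
          have h7 : b a - b a' = (t0 - b a') - (t0 - b a) := by ring
          rw [h7]
          exact fin_sub_le v _ _
        rcases le_max_iff.1 h6 with h7 | h7
        · linarith
        · linarith
  have hmf : ∀ l, {v | W l v}.Finite := by
    intro l
    have hm := (MeetT_fin b t0 ht).union hBad2f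
    refine hm.subset fun v hv => ?_
    by_cases hvB : v ∈ Bad2
    · exact Or.inr hvB
    · exact Or.inl (hmeet v hvB l hv)
  have h4 := sum_wt_le W hmf Bad2 hBad2f huniq
  have h5 : wt (fun v => v ∉ Bad2 ∧ ∃ l, W l v) ≤
      wt (fun v => v ∉ S' ∧ v ∉ Bad ∧ MeetT b t0 v) := by
    refine wt_mono ((MeetT_fin b t0 ht).subset fun v hv => hv.2.2) ?_
    rintro v ⟨hv, l, hm⟩
    exact ⟨fun h => hv (Or.inl (Or.inr h)), fun h => hv (Or.inl (Or.inl h)), hmeet v hv l hm⟩
  linarith

/-- **the inequality over the field of the certificate** -/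
theorem ari2L (locb : S_LOCB) (finz : S_FINZ) {k E : Type} [Field k] [Field E] [NumberField E]
    [Algebra k E] {M g q w n' : ℕ} {G : Fin g → MvPolynomial (Fin M) k} (hsm : Sm (n' + 1) G)
    {F : Fin q → Fin w → MvPolynomial (Fin M) k} {δ : Fin q → ℕ}
    {P : MvPolynomial (Fin 2) E} (hP : Irreducible P) {φ : Fin M → MvPolynomial (Fin 2) E}
    (hX : ∀ i, P ∣ aeval φ (G i)) (hC : Cert n' G F δ P φ) {R : E → Prop}
    (hall : LineR E R) :
    ∃ (c : Fin 2) (T : Set (Fin 2 → E)), T.Finite ∧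
      ∀ (S' : Finset (HeightOneSpectrum (𝓞 E))) (ε : ℝ), 0 < ε → ∃ C0 : ℝ,
      ∀ z : Fin 2 → E, R (z c) → z ∉ T → eval z P = 0 → pt φ z ≠ 0 →
      (∀ i, ∃ j, aeval (pt φ z) (F i j) ≠ 0) → ∀ A, IsTB (p := n' + 2) G (pt φ z) A →
      LHS F δ (pt φ z) A ≤ wt (fun v => v ∉ S' ∧ DM F δ (pt φ z) v) +
        ε * logHeight ![1, z c] + C0 := by
  classical
  obtain ⟨c, ν, e, b, Q, Γ, h1, h2, h3, h4, h5, ⟨J0, h6⟩, h7, h8, h9, h10⟩ := hC
  obtain ⟨Bad, C1, hBad, hmain⟩ := ari1 locb hsm hX h1 h2 h7 h8 h9 h10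
  set T : Set (Fin 2 → E) := ({z | eval z P = 0 ∧ eval z Q = 0} ∪
    {z | eval z P = 0 ∧ eval z (Γ J0) = 0}) ∪
    ⋃ a, {z | eval z P = 0 ∧ eval z (X c - C (b a)) = 0} with hT
  refine ⟨c, T, ?_, ?_⟩
  · refine ((finz E P Q hP h5).union (finz E P (Γ J0) hP h6)).union
      (Set.finite_iUnion fun a => finz E P _ hP (not_dvd_line h4 (b a)))
  intro S' ε hε
  obtain ⟨C2, hC2⟩ := hall ν b h3 S' Bad hBad ε hε
  refine ⟨C1 + C2, fun z hzR hzT hz hx hxF A hA => ?_⟩
  have hQ : eval z Q ≠ 0 := fun h => hzT (by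
    rw [hT]
    exact Or.inl (Or.inl ⟨hz, h⟩))
  have hΓ : eval z (Γ J0) ≠ 0 := fun h => hzT (by
    rw [hT]
    exact Or.inl (Or.inr ⟨hz, h⟩))
  have hb : ∀ a, z c ≠ b a := fun a h => hzT (by
    rw [hT]
    refine Or.inr (Set.mem_iUnion.2 ⟨a, hz, ?_⟩)
    rw [map_sub, eval_X, eval_C, h, sub_self])
  have hWf : {v | v ∉ S' ∧ v ∉ Bad ∧ MeetT b (z c) v ∧ ¬ DM F δ (pt φ z) v}.Finite :=
    (MeetT_fin b (z c) hb).subset fun v hv => hv.2.2.1
  have e1 := hmain z hz hx hxF hQ ⟨J0, hΓ⟩ hb A hA hWf.toFinset (by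
    intro v hv
    rw [hWf.mem_toFinset] at hv
    exact ⟨hv.2.1, hv.2.2.2, hv.2.2.1⟩)
  rw [wt_sum] at e1
  have e2 := hC2 (z c) hzR hb
  have hDf : {v | v ∉ S' ∧ DM F δ (pt φ z) v}.Finite :=
    (DM_fin hx hxF).subset fun v hv => hv.2
  have e3 : wt (fun v => v ∉ S' ∧ v ∉ Bad ∧ MeetT b (z c) v) ≤
      wt (fun v => v ∉ S' ∧ v ∉ Bad ∧ MeetT b (z c) v ∧ ¬ DM F δ (pt φ z) v) +
      wt (fun v => v ∉ S' ∧ DM F δ (pt φ z) v) := by
    refine (wt_mono (Q := fun v => (v ∉ S' ∧ v ∉ Bad ∧ MeetT b (z c) v ∧ ¬ DM F δ (pt φ z) v) ∨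
      (v ∉ S' ∧ DM F δ (pt φ z) v)) (hWf.union hDf) ?_).trans (wt_or_le hWf hDf)
    rintro v ⟨hv1, hv2, hv3⟩
    by_cases h : DM F δ (pt φ z) v
    · exact Or.inr ⟨hv1, h⟩
    · exact Or.inl ⟨hv1, hv2, hv3, h⟩
  unfold LHS
  linarith

/-- **the inequality outside of a finite set** -/
theorem ari3L (locb : S_LOCB) (finz : S_FINZ) (ht : S_HT) {k L E Ω : Type} [Field k]
    [NumberField k] [Field L] [NumberField L] [Field E] [NumberField E] [Field Ω] [Algebra k L]
    [Algebra k E] [Algebra L E] [IsScalarTower k L E] [Algebra L Ω] [Algebra E Ω]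
    [IsScalarTower L E Ω] [IsAlgClosed Ω] {M g q w n' : ℕ} {G : Fin g → MvPolynomial (Fin M) k}
    (hsm : Sm (n' + 1) G)
    {F : Fin q → Fin w → MvPolynomial (Fin M) k} {δ : Fin q → ℕ}
    {P : MvPolynomial (Fin 2) L} (hP : Irreducible (MvPolynomial.map (algebraMap L Ω) P))
    {φ : Fin M → MvPolynomial (Fin 2) L} (hX : ∀ i, P ∣ aeval φ (G i)) (l0 l1 : Fin M)
    (hl1 : ¬ P ∣ φ l1)
    (hnon : ∀ c0 : Ω, ¬ MvPolynomial.map (algebraMap L Ω) P ∣
      MvPolynomial.map (algebraMap L Ω) (φ l0) - C c0 * MvPolynomial.map (algebraMap L Ω) (φ l1))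
    (hC : Cert n' G F δ (MvPolynomial.map (algebraMap L E) P)
      (fun l => MvPolynomial.map (algebraMap L E) (φ l))) 
    (hall : LineR E fun t => ∃ T : L, algebraMap L E T = t)
    (S : Finset (HeightOneSpectrum (𝓞 L))) (ε : ℝ) (hε : 0 < ε) :
    ∃ (T : Set (Fin 2 → L)) (C0 : ℝ), T.Finite ∧
      ∀ z : Fin 2 → L, z ∉ T → eval z P = 0 → pt φ z ≠ 0 →
      (∀ i, ∃ j, aeval (pt φ z) (F i j) ≠ 0) → ∀ A, IsTB (p := n' + 2) G (pt φ z) A →
      LHS F δ (pt φ z) A ≤ wt (fun v => v ∉ S ∧ DM F δ (pt φ z) v) +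
        ε * logHeight (pt φ z) + C0 := by
  classical
  have hPΩ : MvPolynomial.map (algebraMap L Ω) P =
      MvPolynomial.map (algebraMap E Ω) (MvPolynomial.map (algebraMap L E) P) := by
    rw [MvPolynomial.map_map, ← IsScalarTower.algebraMap_eq]
  have hPE : Irreducible (MvPolynomial.map (algebraMap L E) P) := by
    refine AC.PHT.irr_of_map (algebraMap E Ω) _ ?_
    rw [← hPΩ]
    exact hP
  obtain ⟨c, T, hT, hmain⟩ := ari2L locb finz hsm hPE (φ := fun l => MvPolynomial.map (algebraMap L E) (φ l))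
    (by
      intro i
      rw [AC.PDESC.map_aeval']
      exact map_dvd _ (hX i)) hC hall
  obtain ⟨C1, T1, hC1, hT1, hht⟩ := ht L Ω M P φ c l0 l1 hP hl1 hnon
  set S' : Finset (HeightOneSpectrum (𝓞 E)) := S.biUnion fun v => (over_fin E v).toFinset with hS'
  obtain ⟨C2, hC2⟩ := hmain S' (ε / (C1 + 1)) (by positivity)
  have hf : (0 : ℝ) < finrank L E := by exact_mod_cast finrank_pos
  refine ⟨(fun z : Fin 2 → L => (fun i => algebraMap L E (z i))) ⁻¹' T ∪ T1,
    ε + C2 / finrank L E, ?_, ?_⟩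
  · refine (hT.preimage (Function.Injective.injOn ?_)).union hT1
    intro z z' h
    funext i
    exact (algebraMap L E).injective (congrFun h i)
  intro z hz hzP hx hxF A hA
  simp only [Set.mem_union, Set.mem_preimage, not_or] at hz
  have e1 := hC2 (fun i => algebraMap L E (z i)) ⟨z c, rfl⟩ hz.1 (by rw [eval_mp, hzP, map_zero]) (by
    rw [pt_mp]
    intro h
    apply hx
    funext l
    exact (map_eq_zero _).1 (congrFun h l)) (by
    intro i
    obtain ⟨j, hj⟩ := hxF i
    refine ⟨j, ?_⟩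
    rw [pt_mp, aeval_am]
    exact (map_ne_zero _).2 hj) (fun l c => algebraMap L E (A l c)) (by
    rw [pt_mp]
    exact IsTB_map G _ A hA)
  rw [pt_mp] at e1
  set x := pt φ z with hxd
  have e2 : LHS F δ (fun l => algebraMap L E (x l)) (fun l c => algebraMap L E (A l c)) =
      finrank L E * LHS F δ x A := by
    unfold LHS
    have a1 : logHeight (mv (fun l c => algebraMap L E (A l c))) =
        finrank L E * logHeight (mv A) := by
      have : mv (fun l c => algebraMap L E (A l c)) = fun J => algebraMap L E (mv A J) := by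
        funext J
        exact mv_map A J
      rw [this]
      exact Pool.Agent.Helper259.HtExt.logHeight_ext (K := L) (L := E) (mv A)
    have a2 : logHeight (fun l => algebraMap L E (x l)) = finrank L E * logHeight x :=
      Pool.Agent.Helper259.HtExt.logHeight_ext (K := L) (L := E) _
    have a3 : ∀ i, logHeight (fun j => aeval (fun l => algebraMap L E (x l)) (F i j)) =
        finrank L E * logHeight (fun j => aeval x (F i j)) := by
      intro i
      have : (fun j => aeval (fun l => algebraMap L E (x l)) (F i j)) =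
          fun j => algebraMap L E (aeval x (F i j)) := by
        funext j
        exact aeval_am _ _
      rw [this]
      exact Pool.Agent.Helper259.HtExt.logHeight_ext (K := L) (L := E) _
    simp only [a1, a2, a3]
    rw [mul_add, mul_sub, Finset.mul_sum]
    congr 1
    · ring
    · exact Finset.sum_congr rfl fun i _ => by ring
  have e3 : logHeight (![1, algebraMap L E (z c)] : Fin 2 → E) =
      finrank L E * logHeight (![1, z c] : Fin 2 → L) := by
    have h1 : (![1, algebraMap L E (z c)] : Fin 2 → E) = fun i => algebraMap L E (![1, z c] i) := by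
      funext i
      fin_cases i
      · exact (map_one _).symm
      · rfl
    rw [h1]
    exact Pool.Agent.Helper259.HtExt.logHeight_ext (K := L) (L := E) _
  have hDf : {v | v ∉ S ∧ DM F δ x v}.Finite := (DM_fin hx hxF).subset fun v hv => hv.2
  have e4 := (cnt_ext (L := L) (E := E) (fun v => v ∉ S ∧ DM F δ x v) hDf
    (fun v => v ∉ S' ∧ DM F δ (fun l => algebraMap L E (x l)) v) (by
      rintro Q ⟨hQ, hQD⟩
      obtain ⟨v, hv⟩ := exists_under (L := L) Q
      refine ⟨v, ⟨fun hvS => hQ ?_, DM_over (E := E) hx hv hQD⟩, hv⟩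
      rw [hS', Finset.mem_biUnion]
      exact ⟨v, hvS, mem_over.2 hv⟩)).2
  have e5 := hht z hzP hz.2 hx
  have e6 : logHeight (fun i => eval z (φ i)) = logHeight x := rfl
  rw [e6] at e5
  rw [e2, e3] at e1
  set H := logHeight (![1, z c] : Fin 2 → L) with hH
  set W := wt (fun v => v ∉ S ∧ DM F δ x v) with hW
  have hH0 : 0 ≤ H := logHeight_nonneg _
  have hx0 : 0 ≤ logHeight x := logHeight_nonneg _
  have e7 : finrank L E * LHS F δ x A ≤ finrank L E * (W + ε / (C1 + 1) * H + C2 / finrank L E) := by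
    have : finrank L E * (W + ε / (C1 + 1) * H + C2 / finrank L E) =
        finrank L E * W + ε / (C1 + 1) * (finrank L E * H) + C2 := by
      field_simp
    rw [this]
    linarith
  have e8 := le_of_mul_le_mul_left e7 hf
  have e9 : ε / (C1 + 1) * H ≤ ε * (logHeight x + 1) := by
    have h1 : ε / (C1 + 1) * H ≤ ε / (C1 + 1) * (C1 * (logHeight x + 1)) :=
      mul_le_mul_of_nonneg_left e5 (by positivity)
    refine h1.trans ?_
    have h2 : ε / (C1 + 1) * (C1 * (logHeight x + 1)) =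
        ε * (logHeight x + 1) * (C1 / (C1 + 1)) := by
      field_simp
    rw [h2]
    have h3 : C1 / (C1 + 1) ≤ 1 := by
      rw [div_le_one (by linarith)]
      linarith
    exact mul_le_of_le_one_right (by positivity) h3
  linarith

/-- **the inequality on all curves of bounded degree** -/
theorem main_aq {k : Type} [Field k] [NumberField k] {M g q w n' : ℕ}
    (G : Fin g → MvPolynomial (Fin M) k) (e : Fin g → ℕ)
    (hG : ∀ i, (G i).IsHomogeneous (e i)) (hI : (Ideal.span (Set.range G)).IsPrime)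
    (hsm : Sm (n' + 1) G) (F : Fin q → Fin w → MvPolynomial (Fin M) k) (δ : Fin q → ℕ)
    (hF : ∀ i j, (F i j).IsHomogeneous (δ i)) (hnc : NCD G F) (N : ℕ) :
    ∃ (mΦ : ℕ) (Φ : MvPolynomial (Fin M) k), Φ.IsHomogeneous mΦ ∧
      Φ ∉ Ideal.span (Set.range G) ∧
    ∀ (L : Type) [Field L] [NumberField L] [Algebra k L],
    (∀ ε : ℝ, 0 < ε → ∃ C : ℝ, ∀ u : L, Pool.Agent.Q290.NF.Gen u⁻¹ →
      (1 - ε) * logHeight₁ u⁻¹ ≤
        Pool.Agent.Q290.NF.wt (fun v => Pool.Agent.Q290.NF.Near u⁻¹ v) + C) →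
    ∀ (P : MvPolynomial (Fin 2) L) (φ : Fin M → MvPolynomial (Fin 2) L),
      Irreducible (MvPolynomial.map (algebraMap L (AlgebraicClosure L)) P) →
      P.totalDegree ≤ N → (∀ l, (φ l).totalDegree ≤ N) → (∀ i, P ∣ aeval φ (G i)) →
      ¬ P ∣ aeval φ Φ → (∀ i, ∃ j, ¬ P ∣ aeval φ (F i j)) →
    ∀ (S : Finset (HeightOneSpectrum (𝓞 L))) (ε : ℝ), 0 < ε →
    ∃ C0 : ℝ, ∀ z : Fin 2 → L, eval z P = 0 → pt φ z ≠ 0 →
      (∀ i, ∃ j, aeval (pt φ z) (F i j) ≠ 0) → ∀ A, IsTB (p := n' + 2) G (pt φ z) A →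
      LHS F δ (pt φ z) A ≤ wt (fun v => v ∉ S ∧ DM F δ (pt φ z) v) +
        ε * logHeight (pt φ z) + C0 := by
  classical
  obtain ⟨mΦ, Φ, h1, h2, h3⟩ := geoU val emb1 emb2 ram (fine derx deru dl) finord derx deru
    (span derx) dl loc trd acl dvd irr (K := AlgebraicClosure k) G e hG hI hsm F δ hF hnc N
  refine ⟨mΦ, Φ, h1, h2, ?_⟩
  intro L _ _ _ hall P φ hP hPd hφd hX hΦ hFne S ε hε
  let Ω := AlgebraicClosure k
  let _ : Algebra.IsAlgebraic k L := Algebra.IsAlgebraic.of_finite k L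
  let ι : L →ₐ[k] Ω := IsAlgClosed.lift
  let _ : Algebra L Ω := ι.toRingHom.toAlgebra
  have htow : IsScalarTower k L Ω := IsScalarTower.of_algebraMap_eq fun x => (ι.commutes x).symm
  have halg : Algebra.IsAlgebraic L Ω := Algebra.IsAlgebraic.tower_top (K := k) L
  have hclos : IsAlgClosure L Ω := ⟨inferInstance, halg⟩
  let eqv := IsAlgClosure.equiv L (AlgebraicClosure L) Ω
  have hPΩ : Irreducible (MvPolynomial.map (algebraMap L Ω) P) := by
    have h4 : MvPolynomial.map (algebraMap L Ω) P =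
        MvPolynomial.mapEquiv (Fin 2) eqv.toRingEquiv
          (MvPolynomial.map (algebraMap L (AlgebraicClosure L)) P) := by
      have h5 : ((eqv.toRingEquiv : AlgebraicClosure L ≃+* Ω) : AlgebraicClosure L →+* Ω).comp
          (algebraMap L (AlgebraicClosure L)) = algebraMap L Ω :=
        RingHom.ext fun x => eqv.commutes x
      rw [MvPolynomial.mapEquiv_apply, MvPolynomial.map_map, h5]
    rw [h4]
    exact (MulEquiv.irreducible_iff _).2 hP
  have hdeg : ∀ Q : MvPolynomial (Fin 2) L, (MvPolynomial.map (algebraMap L Ω) Q).totalDegree ≤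
      Q.totalDegree := fun Q => Finset.sup_mono (MvPolynomial.support_map_subset _ _)
  obtain ⟨r, hr⟩ := AC.PDESC.exists_rt L Ω
  have hnd : ∀ Q : MvPolynomial (Fin 2) L, ¬ P ∣ Q → ¬ MvPolynomial.map (algebraMap L Ω) P ∣
      MvPolynomial.map (algebraMap L Ω) Q := fun Q hQ h => hQ (AC.PDESC.dvd_desc r hr h)
  by_cases hnon : ∃ l0 l1, ¬ P ∣ φ l1 ∧ ∀ c0 : Ω, ¬ MvPolynomial.map (algebraMap L Ω) P ∣
      MvPolynomial.map (algebraMap L Ω) (φ l0) - C c0 * MvPolynomial.map (algebraMap L Ω) (φ l1)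
  swap
  · push Not at hnon
    exact lhs_const (Ω := Ω) hG hsm F δ hX hnon S ε hε
  obtain ⟨l0, l1, hl1, hnon⟩ := hnon
  have hcert : Cert n' G F δ (MvPolynomial.map (algebraMap L Ω) P)
      (fun l => MvPolynomial.map (algebraMap L Ω) (φ l)) := by
    refine h3 _ _ hPΩ ((hdeg P).trans hPd) (fun l => (hdeg _).trans (hφd l))
      ⟨l0, l1, hnd _ hl1, hnon⟩ ?_ ?_ ?_
    · intro i
      rw [AC.PDESC.map_aeval']
      exact map_dvd _ (hX i)
    · rw [AC.PDESC.map_aeval']
      exact hnd _ hΦ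
    · intro i
      obtain ⟨j, hj⟩ := hFne i
      refine ⟨j, ?_⟩
      rw [AC.PDESC.map_aeval']
      exact hnd _ hj
  obtain ⟨E, iE1, iE2, iE3, iE4, iE5, iE6, iE7, hcE⟩ := desc k L Ω M g q w n' G F δ P φ hcert
  exact lhs_finite hG hsm F δ hX S ε hε (ari3L (E := E) (Ω := Ω) locb finz (ht finz) hsm hPΩ hX l0 l1
    hl1 hnon hcE (abcL hall) S ε hε)

end Pool.Agent.H432.AQ
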