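import Mathlib
import Pool.Agent.H432.AQ.Main

/-!
Plane curves which are irreducible over `L` but not absolutely irreducible have finitely many points
over `L`; the truncated inequality for all curves which are irreducible over `L`.
-/

set_option autoImplicit false
set_option linter.unusedVariables false
set_option linter.unusedSectionVars false

namespace Pool.Agent.H432.AQ

open NumberField IsDedekindDomain Height Module MvPolynomial Pool.Agent.N750 Pool.Agent.H432.RC
open Pool.Agent.H432.TC (DM)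
open Pool.Agent.Q290.NF (wt)
open Pool.Agent.H432.AC

/-- a polynomial over `L` through the rational points of a curve over an extension -/
theorem desc_rat {L Ω : Type} [Field L] [Field Ω] [Algebra L Ω] (A : MvPolynomial (Fin 2) Ω)
    (hA : A ≠ 0) : ∃ A' : MvPolynomial (Fin 2) L, A' ≠ 0 ∧ A'.totalDegree ≤ A.totalDegree ∧
      ∀ z : Fin 2 → L, eval (fun i => algebraMap L Ω (z i)) A = 0 → eval z A' = 0 := by
  classical
  obtain ⟨m0, hm0⟩ := MvPolynomial.ne_zero_iff.1 hA
  obtain ⟨lam, hlam⟩ : ∃ lam : Module.Dual L Ω, lam (coeff m0 A) ≠ 0 := by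
    by_contra hcon
    push Not at hcon
    exact hm0 ((Module.forall_dual_apply_eq_zero_iff L _).1 hcon)
  set A' : MvPolynomial (Fin 2) L := ∑ m ∈ A.support, monomial m (lam (coeff m A)) with hA'
  have hco : ∀ m, coeff m A' = lam (coeff m A) := by
    intro m
    rw [hA', coeff_sum]
    simp only [coeff_monomial]
    rw [Finset.sum_ite_eq']
    split_ifs with h
    · rfl
    · rw [notMem_support_iff.1 h, map_zero]
  refine ⟨A', ?_, ?_, ?_⟩
  · intro h0
    apply hlam
    rw [← hco, h0, coeff_zero]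
  · refine Finset.sup_mono ?_
    intro m hm
    rw [MvPolynomial.mem_support_iff] at hm ⊢
    intro h0
    exact hm (by rw [hco, h0, map_zero])
  · intro z hz
    have h1 : eval z A' = lam (eval (fun i => algebraMap L Ω (z i)) A) := by
      rw [hA', map_sum, eval_eq, map_sum]
      refine Finset.sum_congr rfl fun m _ => ?_
      rw [eval_monomial]
      have h2 : coeff m A * ∏ i ∈ m.support, algebraMap L Ω (z i) ^ m i =
          (∏ i ∈ m.support, z i ^ m i) • coeff m A := by
        rw [Algebra.smul_def, map_prod, mul_comm]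
        congr 1
        exact Finset.prod_congr rfl fun i _ => by rw [map_pow]
      rw [h2, map_smul, smul_eq_mul, mul_comm]
      rfl
    rw [h1, hz, map_zero]

theorem deg_pos {Ω : Type} [Field Ω] {A : MvPolynomial (Fin 2) Ω} (hA : A ≠ 0)
    (hu : ¬ IsUnit A) : 0 < A.totalDegree := by
  by_contra hcon
  have h0 : A.totalDegree = 0 := by omega
  have h1 := (totalDegree_eq_zero_iff_eq_C).1 h0
  apply hu
  rw [h1]
  refine IsUnit.map C (isUnit_iff_ne_zero.2 fun h2 => hA ?_)
  rw [h1, h2, C_0]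

theorem fin_nonabs {L Ω : Type} [Field L] [Field Ω] [Algebra L Ω] {P : MvPolynomial (Fin 2) L}
    (hP : Irreducible P) (hn : ¬ Irreducible (MvPolynomial.map (algebraMap L Ω) P)) :
    {z : Fin 2 → L | eval z P = 0}.Finite := by
  classical
  have hinj := MvPolynomial.map_injective (σ := Fin 2) (algebraMap L Ω) (algebraMap L Ω).injective
  have h0 : MvPolynomial.map (algebraMap L Ω) P ≠ 0 := fun h => hP.ne_zero (hinj (by
    rw [h, map_zero]))
  have hdeg : (MvPolynomial.map (algebraMap L Ω) P).totalDegree ≤ P.totalDegree :=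
    Finset.sup_mono (MvPolynomial.support_map_subset _ _)
  have hdeg' : (MvPolynomial.map (algebraMap L Ω) P).totalDegree = P.totalDegree := by
    refine le_antisymm hdeg (Finset.sup_mono fun m hm => ?_)
    rw [MvPolynomial.mem_support_iff] at hm ⊢
    rw [coeff_map]
    exact (map_ne_zero _).2 hm
  have hu : ¬ IsUnit (MvPolynomial.map (algebraMap L Ω) P) := by
    intro hu
    have h1 := (MvPolynomial.isUnit_iff_totalDegree_of_isReduced.1 hu).2
    have h2 := deg_pos hP.ne_zero hP.not_isUnit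
    omega
  obtain ⟨A, B, hAB, hA, hB⟩ : ∃ A B, MvPolynomial.map (algebraMap L Ω) P = A * B ∧
      ¬ IsUnit A ∧ ¬ IsUnit B := by
    by_contra hcon
    push Not at hcon
    exact hn ⟨hu, fun A B hAB => by
      by_cases hA : IsUnit A
      · exact Or.inl hA
      · exact Or.inr (hcon A B hAB hA)⟩
  have hA0 : A ≠ 0 := fun h => h0 (by rw [hAB, h, zero_mul])
  have hB0 : B ≠ 0 := fun h => h0 (by rw [hAB, h, mul_zero])
  have hd : A.totalDegree + B.totalDegree = P.totalDegree := by
    rw [← hdeg', hAB, totalDegree_mul_of_isDomain hA0 hB0]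
  have hdA := deg_pos hA0 hA
  have hdB := deg_pos hB0 hB
  have hfin : ∀ A : MvPolynomial (Fin 2) Ω, A ≠ 0 → A.totalDegree < P.totalDegree →
      {z : Fin 2 → L | eval z P = 0 ∧ eval (fun i => algebraMap L Ω (z i)) A = 0}.Finite := by
    intro A hA0 hlt
    obtain ⟨A', h1, h2, h3⟩ := desc_rat (L := L) A hA0
    refine (finz L P A' hP ?_).subset fun z hz => ⟨hz.1, h3 z hz.2⟩
    rintro ⟨R, hR⟩
    have hR0 : R ≠ 0 := fun h => h1 (by rw [hR, h, mul_zero])
    have h4 := totalDegree_mul_of_isDomain hP.ne_zero hR0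
    rw [← hR] at h4
    omega
  refine ((hfin A hA0 (by omega)).union (hfin B hB0 (by omega))).subset fun z hz => ?_
  have h1 : eval (fun i => algebraMap L Ω (z i)) (MvPolynomial.map (algebraMap L Ω) P) = 0 := by
    rw [eval_mp]
    rw [show eval z P = 0 from hz, map_zero]
  rw [hAB, map_mul] at h1
  rcases mul_eq_zero.1 h1 with h2 | h2
  · exact Or.inl ⟨hz, h2⟩
  · exact Or.inr ⟨hz, h2⟩

/-- **the inequality on all curves of bounded degree which are irreducible over `L`** -/
theorem main_irr {k : Type} [Field k] [NumberField k] {M g q w n' : ℕ}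
    (G : Fin g → MvPolynomial (Fin M) k) (e : Fin g → ℕ)
    (hG : ∀ i, (G i).IsHomogeneous (e i)) (hI : (Ideal.span (Set.range G)).IsPrime)
    (hsm : Sm (n' + 1) G) (F : Fin q → Fin w → MvPolynomial (Fin M) k) (δ : Fin q → ℕ)
    (hF : ∀ i j, (F i j).IsHomogeneous (δ i)) (hnc : NCD G F) (N : ℕ) :
    ∃ (mΦ : ℕ) (Φ : MvPolynomial (Fin M) k), Φ.IsHomogeneous mΦ ∧
      Φ ∉ Ideal.span (Set.range G) ∧
    ∀ (L : Type) [Field L] [NumberField L] [Algebra k L],
    (∀ ε : ℝ, 0 < ε → ∃ C : ℝ, ∀ u : L, Pool.Agent.Q290.NF.Gen u⁻¹ →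
      (1 - ε) * logHeight₁ u⁻¹ ≤
        Pool.Agent.Q290.NF.wt (fun v => Pool.Agent.Q290.NF.Near u⁻¹ v) + C) →
    ∀ (P : MvPolynomial (Fin 2) L) (φ : Fin M → MvPolynomial (Fin 2) L), Irreducible P →
      P.totalDegree ≤ N → (∀ l, (φ l).totalDegree ≤ N) → (∀ i, P ∣ aeval φ (G i)) →
      ¬ P ∣ aeval φ Φ → (∀ i, ∃ j, ¬ P ∣ aeval φ (F i j)) →
    ∀ (S : Finset (HeightOneSpectrum (𝓞 L))) (ε : ℝ), 0 < ε →
    ∃ C0 : ℝ, ∀ z : Fin 2 → L, eval z P = 0 → pt φ z ≠ 0 →
      (∀ i, ∃ j, aeval (pt φ z) (F i j) ≠ 0) → ∀ A, IsTB (p := n' + 2) G (pt φ z) A →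
      LHS F δ (pt φ z) A ≤ wt (fun v => v ∉ S ∧ DM F δ (pt φ z) v) +
        ε * logHeight (pt φ z) + C0 := by
  classical
  obtain ⟨mΦ, Φ, h1, h2, h3⟩ := main_aq G e hG hI hsm F δ hF hnc N
  refine ⟨mΦ, Φ, h1, h2, ?_⟩
  intro L _ _ _ hall P φ hP hPd hφd hX hΦ hFne S ε hε
  by_cases habs : Irreducible (MvPolynomial.map (algebraMap L (AlgebraicClosure L)) P)
  · exact h3 L hall P φ habs hPd hφd hX hΦ hFne S ε hε
  · refine lhs_finite hG hsm F δ hX S ε hε ⟨{z | eval z P = 0}, 0, fin_nonabs hP habs,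
      fun z hzT hz => absurd hz hzT⟩

end Pool.Agent.H432.AQ
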